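import Pool.Agent.ATW.Stmts

/-!
# Squad ATW, row RGW: the elements `y ^ j w ^ i`
-/

set_option autoImplicit false

noncomputable section

namespace Pool.Agent.PP.TW.H84

open Pool.Agent.Helper51_AWC Pool.Agent.Helper79_WRA Pool.Agent.PP Pool.Agent.PP.KF
open Pool.Agent.PP.K9 Pool.Agent.PP.K9.H97 Pool.Agent.PP.H75 Pool.Agent.PP.T3 Pool.Agent.PP.T2
open Pool.Agent.PP.T5 Pool.Agent.PP.TB
open Pool.Agent.PP.T8 (rs pw fv rd Ip Rv vv Dat Fr)

attribute [local instance] Ideal.Quotient.field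

/-- RGW -/
theorem rgw : RgwStmt := by
  intro M _ _ G _ _ a e V γ b d c ε y w h
  have hw : w ∈ V := by
    obtain ⟨x, hx, rfl⟩ := h.wV
    exact V.pow_mem hx 2
  have hyw : Commute y w := h.dat.ld.ab y h.yV w hw
  have hmem : ∀ j i : ℕ, y ^ j * w ^ i ∈ V := fun j i =>
    V.mul_mem (V.pow_mem h.yV j) (V.pow_mem hw i)
  have hcomm : ∀ j i : ℕ, Commute (y ^ j) (w ^ i) := fun j i => hyw.pow_pow j i
  obtain ⟨k, hk⟩ : ∃ k, a = k + 2 := ⟨a - 2, by have := h.le; omega⟩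
  have hw2 : ∀ n : ℕ, 2 ∣ n → w ^ n = 1 := by
    rintro n ⟨m, rfl⟩
    rw [pow_mul, h.w2, one_pow]
  have hne : ∀ j i : ℕ, ¬ 2 ∣ j → y ^ j * w ^ i ≠ 1 := by
    intro j i hj h1
    have h2 : (y ^ j * w ^ i) ^ 2 = 1 := by rw [h1, one_pow]
    rw [(hcomm j i).mul_pow, ← pow_mul, ← pow_mul, hw2 (i * 2) ⟨i, by ring⟩, mul_one] at h2
    have h3 := orderOf_dvd_of_pow_eq_one h2
    rw [h.oy, hk, pow_succ] at h3
    have h4 : 2 ^ (k + 1) ∣ j := Nat.dvd_of_mul_dvd_mul_right (by norm_num) h3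
    exact hj ((dvd_pow_self 2 (by omega)).trans h4)
  have hz : ∀ j i : ℕ, ¬ 2 ∣ j → (y ^ j * w ^ i) ^ 2 ^ (k + 1) = y ^ 2 ^ (k + 1) := by
    intro j i hj
    rw [(hcomm j i).mul_pow, ← pow_mul, ← pow_mul,
      hw2 (i * 2 ^ (k + 1)) ((dvd_pow_self 2 (by omega)).mul_left i), mul_one]
    rw [pow_eq_pow_iff_modEq, h.oy, hk]
    obtain ⟨m, hm⟩ : ∃ m, j = 2 * m + 1 := ⟨j / 2, by omega⟩
    have h1 : j * 2 ^ (k + 1) = 2 ^ (k + 1) + 2 ^ (k + 2) * m := by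
      rw [hm]
      ring
    rw [h1]
    change (2 ^ (k + 1) + 2 ^ (k + 2) * m) % 2 ^ (k + 2) = 2 ^ (k + 1) % 2 ^ (k + 2)
    rw [Nat.add_mul_mod_self_left]
  refine ⟨?_, ?_, ?_, ?_⟩
  · intro j i hj
    refine ⟨hmem j i, hne j i hj, ?_⟩
    rintro t ⟨ht, htc⟩
    refine h.fr t ht _ (hmem j i) (hne j i hj) ?_
    have h1 := Subgroup.mem_centralizer_iff.1 htc
    exact (h1 _ (Set.mem_singleton _)).symm
  · intro j j' i i' hj hj' t ht h1
    have h2 : t * y ^ 2 ^ (k + 1) * t⁻¹ = y ^ 2 ^ (k + 1) := by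
      have h3 : (t * (y ^ j * w ^ i) * t⁻¹) ^ 2 ^ (k + 1) = (y ^ j' * w ^ i') ^ 2 ^ (k + 1) := by
        rw [h1]
      rw [conj_pow, hz j i hj, hz j' i' hj'] at h3
      exact h3
    have h3 : y ^ 2 ^ (k + 1) ≠ 1 := by
      intro h4
      have h5 := orderOf_dvd_of_pow_eq_one h4
      rw [h.oy, hk] at h5
      have h6 := (Nat.pow_dvd_pow_iff_le_right (by norm_num : 1 < 2)).1 h5
      omega
    have h4 : t ∈ Subgroup.centralizer (V : Set G) := by
      refine h.fr t ht _ (V.pow_mem h.yV _) h3 ?_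
      rw [← mul_inv_eq_iff_eq_mul]
      exact h2
    have h5 := Subgroup.mem_centralizer_iff.1 h4 _ (hmem j i)
    rw [← h1, ← h5, mul_inv_cancel_right]
  · intro j j' i i' h1
    have h2 : i ≡ i' [MOD 2] := by
      by_contra h3
      have h4 : y ^ (j' + j * (2 ^ a - 1)) = w ^ (i + i') := by
        have h5 : y ^ (j + j * (2 ^ a - 1)) = 1 := by
          have h6 : j + j * (2 ^ a - 1) = 2 ^ a * j := by
            have h7 : 1 ≤ 2 ^ a := Nat.one_le_two_pow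
            obtain ⟨n, hn⟩ := Nat.exists_eq_add_of_le h7
            rw [hn, Nat.add_sub_cancel_left]
            ring
          rw [h6, pow_mul, ← h.oy, pow_orderOf_eq_one, one_pow]
        have h6 : y ^ j * w ^ i * w ^ i' = y ^ j' := by
          rw [h1, mul_assoc, ← pow_add, hw2 (i' + i') ⟨i', by ring⟩, mul_one]
        rw [pow_add, ← h6, mul_assoc, mul_assoc, ← mul_assoc (w ^ i), ← pow_add,
          ← (hcomm (j * (2 ^ a - 1)) (i + i')).eq, ← mul_assoc, ← pow_add, h5, one_mul]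
      have h5 : w ^ (i + i') = w := by
        have h6 : (i + i') % 2 = 1 := by
          unfold Nat.ModEq at h3
          omega
        obtain ⟨m, hm⟩ : ∃ m, i + i' = 2 * m + 1 := ⟨(i + i') / 2, by omega⟩
        rw [hm, pow_succ, hw2 _ ⟨m, rfl⟩, one_mul]
      exact h.wy _ (h4.trans h5)
    refine ⟨?_, h2⟩
    have h3 : w ^ i = w ^ i' := by
      rw [pow_eq_pow_iff_modEq]
      exact h2.of_dvd (orderOf_dvd_of_pow_eq_one h.w2)
    rw [h3] at h1
    have h4 := mul_right_cancel h1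
    rw [pow_eq_pow_iff_modEq, h.oy] at h4
    exact h4
  · intro j hj
    rw [hyw.mul_pow]
    obtain ⟨m, hm⟩ : ∃ m, j = 2 * m + 1 := ⟨j / 2, by omega⟩
    have h5 : w ^ j = w := by
      rw [hm, pow_succ, hw2 _ ⟨m, rfl⟩, one_mul]
    rw [h5]

end Pool.Agent.PP.TW.H84
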